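import Pool.Agent.Y772.HI.Nv
import Pool.Agent.Y772.CB.Chr

/-!
# Hecke characters of totally real fields: restriction, Galois conjugation, base change
-/

set_option autoImplicit false

open NumberField Complex Filter Topology Ideal
open scoped Pointwise

namespace Pool.Agent.Y772.HI

open Pool.Agent.Y773 (LI TPos cc rs gal VM exists_pow)
open Pool.Agent.Y767
open Pool.Agent.Y772.NZ Pool.Agent.Y772.SK
open Pool.Agent.Y772.SL (res res_of res_not smul_isCoprime smul_span_nat span_ne_top)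
open Pool.Agent.Y772.CB (up up_apply intNorm_one intNorm_pos)

section general

variable {K : Type} [Field K] [NumberField K]

lemma coprime_of_sub_one {𝔪 : Ideal (𝓞 K)} {x : 𝓞 K} (h : x - 1 ∈ 𝔪) :
    IsCoprime (Ideal.span {x}) 𝔪 := by
  rw [Ideal.isCoprime_iff_exists]
  exact ⟨x, Ideal.mem_span_singleton_self x, -(x - 1), neg_mem h, by ring⟩

lemma norm_ax' (ν : InfinitePlace K → ℝ) (x : K) : ‖ax ν x‖ = 1 := by
  unfold ax
  rw [mul_comm, Complex.norm_exp_ofReal_mul_I]

/-- a Hecke character has absolute value one -/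
lemma hm_norm_one {𝔣 : Ideal (𝓞 K)} {ν : InfinitePlace K → ℝ} {ψ : Ideal (𝓞 K) →*₀ ℂ}
    (hψ : IsHM K 𝔣 ν ψ) {𝔞 : Ideal (𝓞 K)} (h0 : 𝔞 ≠ ⊥) (h : IsCoprime 𝔞 𝔣) : ‖ψ 𝔞‖ = 1 := by
  obtain ⟨k, x, hk, hx0, hx1, hx⟩ := exists_pow hψ.ne_bot h0 h
  have h1 : ψ (Ideal.span {x ^ 2}) = ax ν ((x ^ 2 : 𝓞 K) : K) := by
    refine hψ.ray _ ?_ fun σ => ?_
    · have : x ^ 2 - 1 = (x + 1) * (x - 1) := by ring
      rw [this]
      exact Ideal.mul_mem_left _ _ hx1
    · have h2 : σ ((x ^ 2 : 𝓞 K) : K) = (σ (x : K)) ^ 2 := by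
        rw [← map_pow]
        congr 1
      rw [h2]
      have h3 : σ (x : K) ≠ 0 := (map_ne_zero _).2 (by exact_mod_cast hx0)
      positivity
  rw [← Ideal.span_singleton_pow, ← hx, ← pow_mul, map_pow] at h1
  have h2 := congrArg norm h1
  rw [norm_pow, norm_ax'] at h2
  exact (pow_eq_one_iff_of_nonneg (norm_nonneg _) (by omega)).1 h2

lemma hm_norm_le {𝔣 : Ideal (𝓞 K)} {ν : InfinitePlace K → ℝ} {ψ : Ideal (𝓞 K) →*₀ ℂ}
    (hψ : IsHM K 𝔣 ν ψ) (𝔞 : Ideal (𝓞 K)) : ‖ψ 𝔞‖ ≤ 1 := by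
  by_cases h0 : 𝔞 = ⊥
  · rw [h0, ← Ideal.zero_eq_bot, map_zero, norm_zero]; exact zero_le_one
  by_cases h : IsCoprime 𝔞 𝔣
  · exact (hm_norm_one hψ h0 h).le
  · have : ψ 𝔞 = 0 := by
      by_contra h1
      exact h ((hψ.supp 𝔞 h0).1 h1)
    rw [this, norm_zero]; exact zero_le_one

/-- restriction -/
lemma res_hm {𝔣 : Ideal (𝓞 K)} {ν : InfinitePlace K → ℝ} {ψ : Ideal (𝓞 K) →*₀ ℂ}
    (hψ : IsHM K 𝔣 ν ψ) {𝔪 : Ideal (𝓞 K)} (h0 : 𝔪 ≠ ⊥) (hd : 𝔪 ≤ 𝔣) :
    IsHM K 𝔪 ν (res 𝔪 ψ) where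
  ne_bot := h0
  supp 𝔞 ha := by
    constructor
    · intro h2
      by_contra h3
      exact h2 (res_not h3)
    · intro h2
      rw [res_of h2]
      exact (hψ.supp 𝔞 ha).2 (Ideal.isCoprime_iff_sup_eq.2 (eq_top_iff.2
        ((Ideal.isCoprime_iff_sup_eq.1 h2).ge.trans (sup_le_sup_left hd _))))
  ray x hx hp := by
    rw [res_of (coprime_of_sub_one hx)]
    exact hψ.ray x (hd hx) hp

lemma conj_ax' (ν : InfinitePlace K → ℝ) (x : K) :
    (starRingEnd ℂ) (ax ν x) = ax (fun w => -ν w) x := by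
  unfold ax
  rw [← Complex.exp_conj]
  congr 1
  rw [map_mul, conj_I, conj_ofReal]
  have : (∑ w, -ν w * Real.log (w x) : ℝ) = -∑ w, ν w * Real.log (w x) := by
    rw [← Finset.sum_neg_distrib]
    exact Finset.sum_congr rfl fun w _ => by ring
  rw [this]
  push_cast
  ring

lemma ax_add (ν ν' : InfinitePlace K → ℝ) (x : K) :
    ax ν x * ax ν' x = ax (fun w => ν w + ν' w) x := by
  unfold ax
  rw [← Complex.exp_add, ← mul_add]
  congr 2
  rw [← Complex.ofReal_add, ← Finset.sum_add_distrib]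
  congr 1
  exact Finset.sum_congr rfl fun w _ => by ring

lemma ax_smul (ν : InfinitePlace K → ℝ) (σ : Gal(K/ℚ)) (x : K) :
    ax ν (σ x) = ax (fun w => ν (σ • w)) x := by
  unfold ax
  congr 3
  refine (Fintype.sum_equiv (MulAction.toPerm σ) _ _ fun w => ?_).symm
  rw [MulAction.toPerm_apply]
  congr 2
  rw [InfinitePlace.smul_apply]
  congr 1
  exact (σ.symm_apply_apply x).symm

/-- the sum of a type over a Galois orbit -/
lemma sum_smul (ν : InfinitePlace K → ℝ) (σ : Gal(K/ℚ)) : ∑ w, ν (σ • w) = ∑ w, ν w :=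
  Fintype.sum_equiv (MulAction.toPerm σ) _ _ fun _ => rfl

/-- the type of `ψ / ψ^σ` -/
noncomputable def tσ (ν : InfinitePlace K → ℝ) (σ : Gal(K/ℚ)) (w : InfinitePlace K) : ℝ :=
  ν w + -ν (σ • w)

lemma sum_tσ {ν : InfinitePlace K → ℝ} (hν : ∑ w, ν w = 0) (σ : Gal(K/ℚ)) :
    ∑ w, tσ ν σ w = 0 := by
  unfold tσ
  rw [Finset.sum_add_distrib, Finset.sum_neg_distrib, sum_smul, hν]
  simp

/-- conjugation of a character modulo a rational integer -/
lemma rs_hm {M : ℕ} {ν : InfinitePlace K → ℝ} {η : Ideal (𝓞 K) →*₀ ℂ}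
    (h : IsHM K (Ideal.span {(M : 𝓞 K)}) ν η) (σ : Gal(K/ℚ)) :
    IsHM K (Ideal.span {(M : 𝓞 K)}) (tσ ν σ) (rs σ.toRingEquiv η) where
  ne_bot := h.ne_bot
  supp 𝔞 ha := by
    have ha' : σ • 𝔞 ≠ ⊥ := by
      rw [smul_eq_map]
      intro h0
      exact ha ((Ideal.map_eq_bot_iff_of_injective (RingEquiv.injective _)).1 h0)
    rw [rs_apply, mul_ne_zero_iff, map_ne_zero (starRingEnd ℂ), h.supp _ ha, h.supp _ ha']
    constructor
    · exact fun h1 => h1.1
    · intro h1
      refine ⟨h1, ?_⟩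
      have := smul_isCoprime σ h1
      rwa [smul_span_nat] at this
  ray x hx hp := by
    have h1 : σ • (Ideal.span {x}) =
        Ideal.span {RingOfIntegers.mapRingEquiv σ.toRingEquiv x} := by
      rw [smul_eq_map, Ideal.map_span, Set.image_singleton]
      rfl
    have h2 : RingOfIntegers.mapRingEquiv σ.toRingEquiv x - 1 ∈ Ideal.span {(M : 𝓞 K)} := by
      obtain ⟨y, hy⟩ := Ideal.mem_span_singleton.1 hx
      refine Ideal.mem_span_singleton.2 ⟨RingOfIntegers.mapRingEquiv σ.toRingEquiv y, ?_⟩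
      have := congrArg (RingOfIntegers.mapRingEquiv σ.toRingEquiv) hy
      rw [map_sub, map_one, map_mul, map_natCast] at this
      exact this
    have h3 : ((RingOfIntegers.mapRingEquiv σ.toRingEquiv x : 𝓞 K) : K) = σ (x : K) := rfl
    rw [rs_apply, h.ray x hx hp, h1, h.ray _ h2 fun τ => hp (τ.comp (σ.toRingEquiv : K →+* K)),
      conj_ax', h3, ax_smul, ax_add]
    rfl

end general

section two

variable {K L : Type} [Field K] [NumberField K] [Field L] [NumberField L] [Algebra K L]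

lemma card_fib (hG : IsGalois K L) [IsTotallyReal L] [DecidableEq (InfinitePlace K)]
    (v : InfinitePlace K) :
    (Finset.univ.filter fun w : InfinitePlace L => w.comap (algebraMap K L) = v).card =
      Fintype.card Gal(L/K) := by
  classical
  obtain ⟨w₀, hw₀⟩ := InfinitePlace.comap_surjective (k := K) (K := L) v
  have hw₀ : w₀.comap (algebraMap K L) = v := hw₀
  have h1 : (Finset.univ.filter fun w : InfinitePlace L => w.comap (algebraMap K L) = v) =
      Finset.univ.image fun τ : Gal(L/K) => τ • w₀ := by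
    ext w
    rw [Finset.mem_filter, Finset.mem_image]
    constructor
    · rintro ⟨-, h⟩
      obtain ⟨τ, hτ⟩ := InfinitePlace.exists_smul_eq_of_comap_eq (k := K) (w := w₀) (w' := w)
        (by rw [h, hw₀])
      exact ⟨τ, Finset.mem_univ _, hτ⟩
    · rintro ⟨τ, -, rfl⟩
      refine ⟨Finset.mem_univ _, ?_⟩
      rw [← hw₀, InfinitePlace.comap_smul]
      congr 1
      ext x
      simp
  rw [h1, Finset.card_image_of_injective, Finset.card_univ]
  intro τ τ' h
  have h2 : InfinitePlace.IsUnramified K w₀ := (IsTotallyReal.isReal w₀).isUnramified (k := K)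
  have h3 := h2.stabilizer_eq_bot
  have h4 : τ'⁻¹ * τ ∈ MulAction.stabilizer Gal(L/K) w₀ := by
    rw [MulAction.mem_stabilizer_iff, mul_smul]
    have h5 : τ • w₀ = τ' • w₀ := h
    rw [h5, inv_smul_smul]
  rw [h3, Subgroup.mem_bot] at h4
  exact (inv_mul_eq_one.1 h4).symm

lemma sum_up (hG : IsGalois K L) [IsTotallyReal L] (f : InfinitePlace K → ℝ) :
    ∑ w : InfinitePlace L, f (w.comap (algebraMap K L)) =
      Fintype.card Gal(L/K) * ∑ v, f v := by
  classical
  rw [← Finset.sum_fiberwise Finset.univ (fun w : InfinitePlace L => w.comap (algebraMap K L)),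
    Finset.mul_sum]
  refine Finset.sum_congr rfl fun v _ => ?_
  rw [Finset.sum_congr rfl fun w hw => by rw [(Finset.mem_filter.1 hw).2], Finset.sum_const,
    card_fib hG, nsmul_eq_mul]

lemma ax_up (hG : IsGalois K L) [IsTotallyReal L] (ν : InfinitePlace K → ℝ) {x : L}
    (hx : x ≠ 0) :
    ax (fun w : InfinitePlace L => ν (w.comap (algebraMap K L))) x =
      ax ν (Algebra.norm K x) := by
  unfold ax
  congr 3
  set S : ℝ := ∑ w : InfinitePlace L, ν (w.comap (algebraMap K L)) * Real.log (w x) with hS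
  have h1 : ∀ τ : Gal(L/K), S = ∑ w : InfinitePlace L, ν (w.comap (algebraMap K L)) *
      Real.log (w (τ x)) := by
    intro τ
    rw [hS]
    refine Fintype.sum_equiv (MulAction.toPerm τ) _ _ fun w => ?_
    have e1 : (τ • w).comap (algebraMap K L) = w.comap (algebraMap K L) := by
      rw [InfinitePlace.comap_smul]
      congr 1
      ext y
      simp
    have e2 : (τ • w) (τ x) = w x := by
      rw [InfinitePlace.smul_apply]
      congr 1
      exact τ.symm_apply_apply x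
    rw [MulAction.toPerm_apply, e1, e2]
  have h2 : (Fintype.card Gal(L/K) : ℝ) * S =
      Fintype.card Gal(L/K) * ∑ v, ν v * Real.log (v (Algebra.norm K x)) := by
    have e1 : (Fintype.card Gal(L/K) : ℝ) * S = ∑ _τ : Gal(L/K), S := by
      rw [Finset.sum_const, Finset.card_univ, nsmul_eq_mul]
    rw [e1, ← sum_up (K := K) (L := L) hG (fun v => ν v * Real.log (v (Algebra.norm K x))),
      Finset.sum_congr rfl fun τ _ => h1 τ, Finset.sum_comm]
    refine Finset.sum_congr rfl fun w _ => ?_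
    rw [← Finset.mul_sum, InfinitePlace.comap_apply, Algebra.norm_eq_prod_automorphisms, map_prod,
      Real.log_prod]
    intro τ _
    rw [Ne, map_eq_zero]
    exact (map_ne_zero τ).2 hx
  have h3 : (Fintype.card Gal(L/K) : ℝ) ≠ 0 := by
    have := Fintype.card_pos (α := Gal(L/K))
    exact_mod_cast this.ne'
  exact mul_left_cancel₀ h3 h2

/-- the type of `ψ ∘ N_{L/K}` -/
noncomputable def tup (L : Type) [Field L] [NumberField L] [Algebra K L]
    (ν : InfinitePlace K → ℝ) (w : InfinitePlace L) : ℝ := ν (w.comap (algebraMap K L))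

lemma sum_tup (hG : IsGalois ℚ L) [IsTotallyReal L] {ν : InfinitePlace K → ℝ}
    (hν : ∑ w, ν w = 0) : ∑ w, tup L ν w = 0 := by
  have hGK : IsGalois K L := IsGalois.tower_top_of_isGalois ℚ K L
  unfold tup
  rw [sum_up (K := K) (L := L) hGK ν, hν, mul_zero]

/-- the character `ψ ∘ N_{L/K}` modulo a rational integer -/
lemma up_hm [IsTotallyReal K] [IsTotallyReal L] (hG : IsGalois ℚ L) {M : ℕ} (hM : 1 ≤ M)
    {ν : InfinitePlace K → ℝ} {η : Ideal (𝓞 K) →*₀ ℂ}
    (h : IsHM K (Ideal.span {(M : 𝓞 K)}) ν η) :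
    IsHM L (Ideal.span {(M : 𝓞 L)}) (tup L ν) (up L η) where
  ne_bot := by
    rw [Ne, Ideal.span_singleton_eq_bot, Nat.cast_eq_zero]
    omega
  supp 𝔞 ha := by
    rw [up_apply, h.supp _ (by rwa [Ne, relNorm_eq_bot_iff]), TW.coprime_q, TW.coprime_q,
      absNorm_relNorm]
  ray x hx hp := by
    have hGK : IsGalois K L := IsGalois.tower_top_of_isGalois ℚ K L
    have hx0 : (x : L) ≠ 0 := by
      intro h0
      obtain ⟨w⟩ : Nonempty (InfinitePlace L) := inferInstance
      have := hp (Y773.rl w)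
      rw [h0, map_zero] at this
      exact lt_irrefl _ this
    rw [up_apply, relNorm_singleton, h.ray _ (intNorm_one (K := K) hG (by omega : 0 < M) hx)
      (intNorm_pos (K := K) hG hp)]
    unfold tup
    rw [ax_up (K := K) (L := L) hGK ν hx0]
    congr 1
    exact Algebra.algebraMap_intNorm (A := 𝓞 K) (K := K) (L := L) (B := 𝓞 L) x

end two

end Pool.Agent.Y772.HI
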