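import Pool.Agent.Y772.CB.Fin
import Pool.Agent.Y772.HI.Ray

/-!
# Selberg orthonormality for the automorphic representations of degree two and three induced from
the Hecke characters of totally real fields
-/

set_option autoImplicit false

open NumberField Complex Filter Topology Ideal
open scoped ArithmeticFunction.vonMangoldt Pointwise

namespace Pool.Agent.Y772.HI

open Pool.Agent.Y773 (LI TPos cc rs gal VM)
open Pool.Agent.Y767
open Pool.Agent.Y772.SK Pool.Agent.Y772.NZ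
open Pool.Agent.Y772.SL (SelData res res_of smul_isCoprime smul_span_nat span_ne_top
  coprime_of_norm sel_gal)
open Pool.Agent.Y772.CB (HH up sel_cubic_of nontriv exists_closure galois_of_two)

/-- **Selberg orthonormality**, Galois case of prime degree -/
theorem sel_prime {K : Type} [Field K] [NumberField K] [IsTotallyReal K] (hG : IsGalois ℚ K)
    (hpr : (Module.finrank ℚ K).Prime) {𝔣 : Ideal (𝓞 K)}
    {ν : InfinitePlace K → ℝ} (hν : ∑ w, ν w = 0)
    {ψ : Ideal (𝓞 K) →*₀ ℂ} (hψ : IsHM K 𝔣 ν ψ) {p : ℕ} (hp : p.Prime)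
    (hpf : ¬ p ∣ absNorm 𝔣) {P P' : Ideal (𝓞 K)} (hP : absNorm P = p) (hP' : absNorm P' = p)
    (hne : ψ P ≠ ψ P') : SelData (cc ψ) := by
  classical
  set M : ℕ := (p + 1) * absNorm 𝔣 with hM
  have hN0 : absNorm 𝔣 ≠ 0 := by rw [Ne, absNorm_eq_zero_iff]; exact hψ.ne_bot
  have hM2 : 2 ≤ M := by
    have := hp.two_le
    have := Nat.pos_of_ne_zero hN0
    nlinarith
  have hpM : ¬ p ∣ M := by
    rw [hM, hp.dvd_mul, not_or]
    refine ⟨fun h => ?_, hpf⟩
    have := (Nat.dvd_add_right (dvd_refl p)).1 h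
    exact hp.one_lt.ne' (Nat.dvd_one.1 this)
  have h𝔪0 : Ideal.span {(M : 𝓞 K)} ≠ ⊥ := by
    rw [Ne, Ideal.span_singleton_eq_bot, Nat.cast_eq_zero]
    omega
  have h𝔪1 := span_ne_top (K := K) hM2
  have hle : Ideal.span {(M : 𝓞 K)} ≤ 𝔣 := by
    rw [Ideal.span_singleton_le_iff_mem, hM]
    push_cast
    exact Ideal.mul_mem_left _ _ (absNorm_mem 𝔣)
  have hhm := res_hm hψ h𝔪0 hle
  obtain ⟨e, he1, he⟩ := hhm.isModK hν h𝔪1
  set η := res (Ideal.span {(M : 𝓞 K)}) ψ with hη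
  have hPM := coprime_of_norm hp hP hpM
  have hPM' := coprime_of_norm hp hP' hpM
  -- the conjugating element
  obtain ⟨γ, hγ⟩ : ∃ γ : Gal(K/ℚ), γ • P = P' := by
    have hPp := prime_of_norm hp hP
    have hPl := liesOver_of_norm hp hP
    have hPp' := prime_of_norm hp hP'
    have hPl' := liesOver_of_norm hp hP'
    exact exists_smul_eq_of_isGaloisGroup (span {(p : ℤ)}) P P' (Gal(K/ℚ))
  have hcont : ∀ σ : Gal(K/ℚ), σ ≠ 1 → ∃ 𝔞, IsCoprime 𝔞 (Ideal.span {(M : 𝓞 K)}) ∧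
      rs σ.toRingEquiv η 𝔞 ≠ 1 := by
    intro σ hσ
    by_contra hcon
    push Not at hcon
    have h1 : ∀ 𝔞, IsCoprime 𝔞 (Ideal.span {(M : 𝓞 K)}) → η (σ • 𝔞) = η 𝔞 := by
      intro 𝔞 h𝔞
      have h2 := hcon 𝔞 h𝔞
      rw [rs_apply] at h2
      have h3 : IsCoprime (σ • 𝔞) (Ideal.span {(M : 𝓞 K)}) := by
        have := smul_isCoprime σ h𝔞
        rwa [smul_span_nat] at this
      have h4 := he.norm_eq_one h3
      have h5 : (starRingEnd ℂ) (η (σ • 𝔞)) * η (σ • 𝔞) = 1 := by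
        rw [mul_comm, Complex.mul_conj, Complex.normSq_eq_norm_sq, h4]
        simp
      calc η (σ • 𝔞) = (η 𝔞 * (starRingEnd ℂ) (η (σ • 𝔞))) * η (σ • 𝔞) := by rw [h2, one_mul]
        _ = η 𝔞 := by rw [mul_assoc, h5, mul_one]
    have h2 : ∀ k : ℕ, ∀ 𝔞, IsCoprime 𝔞 (Ideal.span {(M : 𝓞 K)}) → η (σ ^ k • 𝔞) = η 𝔞 := by
      intro k
      induction k with
      | zero => intro 𝔞 _; rw [pow_zero, one_smul]
      | succ k ih =>
        intro 𝔞 h𝔞
        have h3 : IsCoprime (σ • 𝔞) (Ideal.span {(M : 𝓞 K)}) := by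
          have := smul_isCoprime σ h𝔞
          rwa [smul_span_nat] at this
        rw [pow_succ, mul_smul, ih _ h3, h1 𝔞 h𝔞]
    have hcard : Nat.card Gal(K/ℚ) = Module.finrank ℚ K := IsGalois.card_aut_eq_finrank ℚ K
    have hfact : Fact (Module.finrank ℚ K).Prime := ⟨hpr⟩
    have h3 : γ ∈ Subgroup.zpowers σ := mem_zpowers_of_prime_card hcard hσ
    rw [← mem_powers_iff_mem_zpowers] at h3
    obtain ⟨k, hk⟩ := h3
    have hk' : σ ^ k = γ := hk
    have h4 := h2 k P hPM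
    rw [hk', hγ, hη, res_of hPM', res_of hPM] at h4
    exact hne h4.symm
  have hdata : SelData (cc η) := by
    refine sel_gal DK.t_dirK hG η he.norm_le_one ⟨_, h𝔪0, fun 𝔞 h => he.norm_eq_one h⟩
      fun σ hσ => ?_
    obtain ⟨e', he1', he'⟩ := (rs_hm hhm σ).isModK (sum_tσ hν σ) h𝔪1
    exact reg_one he1' (sum_tσ hν σ) he' (hcont σ hσ)
  refine hdata.congr M.primeFactors fun q hq hqM => ?_
  have hqM' : ¬ q ∣ M := fun h => hqM (Nat.mem_primeFactors.2 ⟨hq, h, by omega⟩)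
  obtain ⟨A, hA, hDK⟩ := DK.t_dirK K
  rw [(hDK ψ (hm_norm_le hψ)).2.2.2.2.2.2.2.1 q hq,
    (hDK η he.norm_le_one).2.2.2.2.2.2.2.1 q hq]
  refine finsum_mem_congr rfl fun Q hQ => ?_
  rw [hη, res_of (coprime_of_norm hq hQ hqM')]

/-- **Selberg orthonormality**, non-Galois totally real cubic fields (the Galois closure given) -/
theorem sel_cubic {K L : Type} [Field K] [NumberField K] [Field L] [NumberField L] [Algebra K L]
    [IsTotallyReal K] [IsTotallyReal L] (hG : IsGalois ℚ L)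
    (h2 : Module.finrank K L = 2) (h3 : Module.finrank ℚ K = 3) (hK : ¬ IsGalois ℚ K)
    {𝔣 : Ideal (𝓞 K)} {ν : InfinitePlace K → ℝ} (hν : ∑ w, ν w = 0)
    {ψ : Ideal (𝓞 K) →*₀ ℂ} (hψ : IsHM K 𝔣 ν ψ) {p : ℕ} (hp : p.Prime)
    (hpf : ¬ p ∣ absNorm 𝔣) {P P' : Ideal (𝓞 K)} (hP : absNorm P = p) (hP' : absNorm P' = p)
    (hne : ψ P ≠ ψ P') : SelData (cc ψ) := by
  classical
  set M : ℕ := (p + 1) * absNorm 𝔣 with hM
  have hN0 : absNorm 𝔣 ≠ 0 := by rw [Ne, absNorm_eq_zero_iff]; exact hψ.ne_bot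
  have hM2 : 2 ≤ M := by
    have := hp.two_le
    have := Nat.pos_of_ne_zero hN0
    nlinarith
  have hpM : ¬ p ∣ M := by
    rw [hM, hp.dvd_mul, not_or]
    refine ⟨fun h => ?_, hpf⟩
    have := (Nat.dvd_add_right (dvd_refl p)).1 h
    exact hp.one_lt.ne' (Nat.dvd_one.1 this)
  have h𝔪0 : Ideal.span {(M : 𝓞 K)} ≠ ⊥ := by
    rw [Ne, Ideal.span_singleton_eq_bot, Nat.cast_eq_zero]
    omega
  have h𝔪1 := span_ne_top (K := K) hM2
  have h𝔪2 := span_ne_top (K := L) hM2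
  have hle : Ideal.span {(M : 𝓞 K)} ≤ 𝔣 := by
    rw [Ideal.span_singleton_le_iff_mem, hM]
    push_cast
    exact Ideal.mul_mem_left _ _ (absNorm_mem 𝔣)
  have hhm := res_hm hψ h𝔪0 hle
  obtain ⟨e, he1, he⟩ := hhm.isModK hν h𝔪1
  set η := res (Ideal.span {(M : 𝓞 K)}) ψ with hη
  have hup := up_hm (L := L) hG (by omega : 1 ≤ M) hhm
  have hsup := sum_tup (K := K) hG hν
  obtain ⟨e', he1', he'⟩ := hup.isModK hsup h𝔪2
  have hne' : η P ≠ η P' := by
    rw [hη, res_of (coprime_of_norm hp hP hpM), res_of (coprime_of_norm hp hP' hpM)]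
    exact hne
  have hdata : SelData (cc η) := by
    refine sel_cubic_of (L := L) DK.t_dirK hG h2 h3 hK he.norm_le_one h𝔪0
      (fun 𝔞 h => he.norm_eq_one h) fun σ hσ => ?_
    obtain ⟨e'', he1'', he''⟩ := (rs_hm hup σ).isModK (sum_tσ hsup σ) h𝔪2
    exact reg_one he1'' (sum_tσ hsup σ) he''
      (nontriv hG h2 h3 hK (fun 𝔄 h => he'.norm_eq_one h) hp hpM hP hP' hne' hσ)
  refine hdata.congr M.primeFactors fun q hq hqM => ?_
  have hqM' : ¬ q ∣ M := fun h => hqM (Nat.mem_primeFactors.2 ⟨hq, h, by omega⟩)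
  obtain ⟨A, hA, hDK⟩ := DK.t_dirK K
  rw [(hDK ψ (hm_norm_le hψ)).2.2.2.2.2.2.2.1 q hq,
    (hDK η he.norm_le_one).2.2.2.2.2.2.2.1 q hq]
  refine finsum_mem_congr rfl fun Q hQ => ?_
  rw [hη, res_of (coprime_of_norm hq hQ hqM')]

/-- **Selberg orthonormality**, all totally real fields of degree two and three, all Hecke
characters -/
theorem sel_tot {K : Type} [Field K] [NumberField K] [IsTotallyReal K]
    (hd : Module.finrank ℚ K = 2 ∨ Module.finrank ℚ K = 3)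
    {𝔣 : Ideal (𝓞 K)} {ν : InfinitePlace K → ℝ} (hν : ∑ w, ν w = 0)
    {ψ : Ideal (𝓞 K) →*₀ ℂ} (hψ : IsHM K 𝔣 ν ψ) {p : ℕ} (hp : p.Prime)
    (hpf : ¬ p ∣ absNorm 𝔣) {P P' : Ideal (𝓞 K)} (hP : absNorm P = p) (hP' : absNorm P' = p)
    (hne : ψ P ≠ ψ P') : SelData (cc ψ) ∧ W388.SelE (cc ψ) := by
  have key : SelData (cc ψ) := by
    rcases hd with h2 | h3
    · exact sel_prime (galois_of_two K h2) (by rw [h2]; exact Nat.prime_two) hν hψ hp hpf hP hP' hne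
    · by_cases hG : IsGalois ℚ K
      · exact sel_prime hG (by rw [h3]; exact Nat.prime_three) hν hψ hp hpf hP hP' hne
      · obtain ⟨L, _, _, _, hGL, h2, hreal⟩ := exists_closure K h3 hG
        have hL : IsTotallyReal L := hreal inferInstance
        exact sel_cubic (L := L) hGL h2 h3 hG hν hψ hp hpf hP hP' hne
  refine ⟨key, ?_⟩
  obtain ⟨A, hA, hDK⟩ := DK.t_dirK K
  exact key.selE (hDK ψ (hm_norm_le hψ)).2.2.2.2.2.2.1

end Pool.Agent.Y772.HI
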