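import Pool.Agent.Y772.HI.Asm
import Pool.Agent.Y772.HI.Cmp
import Pool.Agent.Y772.HI.Sel
import Pool.Agent.Y772.NC.D3
import Pool.Agent.H385R2.WinE

/-!
# The zeros of the twists of the automorphic L-functions induced from Hecke characters
-/

set_option autoImplicit false
set_option linter.unusedSectionVars false

open NumberField Complex Filter Topology Set MeasureTheory
open H370 (NN Ns Nd)
open H385 (primFamM Rw)

namespace Pool.Agent.Y772.HI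

open Pool.Agent.Y773 (LI TPos cc tw VM mul_span_ne_top absNorm_span_nat)
open Pool.Agent.Y767

lemma selE_shift {c : ℕ → ℂ} (h : W388.SelE c) (W : ℝ) :
    W388.SelE (fun m => c m * (m : ℂ) ^ (-((W : ℂ) * I))) := by
  unfold W388.SelE at h ⊢
  refine h.congr fun x => ?_
  congr 1
  refine Finset.sum_congr rfl fun m hm => ?_
  have h1 : 0 < m := (Finset.mem_Icc.1 hm).1
  have h2 : ‖(m : ℂ) ^ (-((W : ℂ) * I))‖ = 1 := by
    rw [Complex.norm_natCast_cpow_of_pos h1]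
    simp
  rw [norm_mul, h2, mul_one]

variable {K : Type} [Field K] [NumberField K] [IsTotallyReal K]

/-- **Zeros on the critical line**, general form -/
theorem fin_of {𝔣 : Ideal (𝓞 K)} {ν : InfinitePlace K → ℝ} {ψ : Ideal (𝓞 K) →*₀ ℂ}
    (hψ : IsHecke K 𝔣 ν ψ) (hν : ∑ w, ν w = 0)
    (hSel : W388.SelE (cc ψ)) (γ κ₀ : ℝ) (h0 : 0 < γ) (hπ : γ < Real.pi) (hκ2 : κ₀ ≤ 2)
    (hκ : (Module.finrank ℚ K : ℝ) / 2 * Rw γ 0 +
      4 / (Module.finrank ℚ K : ℝ) * (∫ α in (0 : ℝ)..1, α * Rw γ α) < κ₀) :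
    ∃ F : (q : ℕ) → DirichletCharacter ℂ q → ℂ → ℂ,
      (∀ (q : ℕ) (χ : DirichletCharacter ℂ q), 2 ≤ q →
        Nat.Coprime q (Ideal.absNorm 𝔣 * (discr K).natAbs) → χ.IsPrimitive →
        Differentiable ℂ (F q χ) ∧ ∀ s : ℂ, 1 < s.re → F q χ s = LI (tw ψ χ) s) ∧
      ∃ κ η X0 : ℝ, 1 ≤ κ ∧ 0 < η ∧ 1 ≤ X0 ∧
      ∀ (X Y : ℕ) (T : ℝ), X0 ≤ X → κ * X ≤ Y → (Y : ℝ) ≤ (X : ℝ) ^ (1 + η) →
        (Real.log X) ^ 2 ≤ T → T ≤ (X : ℝ) ^ η →
        (2 - κ₀) * primFamM (Ideal.absNorm 𝔣 * (discr K).natAbs) X Y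
            (fun q χ => (NN (F q χ) T (2 * T) : ℝ)) ≤
          primFamM (Ideal.absNorm 𝔣 * (discr K).natAbs) X Y
            (fun q χ => (Ns (F q χ) T (2 * T) : ℝ)) ∧
        (3 - κ₀) / 2 * primFamM (Ideal.absNorm 𝔣 * (discr K).natAbs) X Y
            (fun q χ => (NN (F q χ) T (2 * T) : ℝ)) ≤
          primFamM (Ideal.absNorm 𝔣 * (discr K).natAbs) X Y
            (fun q χ => (Nd (F q χ) T (2 * T) : ℝ)) := by
  classical
  set N : ℕ := Ideal.absNorm 𝔣 * (discr K).natAbs with hN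
  have hN0 : N ≠ 0 := mul_ne_zero (fun h1 => hψ.ne_bot (Ideal.absNorm_eq_zero_iff.mp h1))
    (Int.natAbs_ne_zero.mpr (discr_ne_zero K))
  set M := W388.rad N with hM
  have hMsq : Squarefree M := W388.rad_squarefree N
  have htw : ∀ (q : ℕ) (χ : DirichletCharacter ℂ q), 2 ≤ q → χ.IsPrimitive → Nat.Coprime q M →
      IsHecke K (𝔣 * Ideal.span {(q : 𝓞 K)}) ν (tw ψ χ) := by
    intro q χ hq hχ hqM
    have hqN : Nat.Coprime q N := (W388.coprime_rad hN0 q).mp hqM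
    refine tw_hecke hψ χ (by omega) hχ ?_ ?_
    · exact Nat.Coprime.coprime_dvd_right (dvd_mul_right _ _) hqN
    · have h1 : Nat.Coprime q (discr K).natAbs :=
        Nat.Coprime.coprime_dvd_right (dvd_mul_left _ _) hqN
      rw [Int.isCoprime_iff_gcd_eq_one]
      simpa [Int.gcd] using h1
  -- the L-functions
  have hex : ∀ (q : ℕ) (χ : DirichletCharacter ℂ q), ∃ F : ℂ → ℂ,
      (2 ≤ q → Nat.Coprime q M → χ.IsPrimitive → Differentiable ℂ F ∧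
        ∀ s : ℂ, 1 < s.re → F s = LI (tw ψ χ) s) := by
    intro q χ
    by_cases hc : 2 ≤ q ∧ Nat.Coprime q M ∧ χ.IsPrimitive
    · obtain ⟨hq, hqM, hχ⟩ := hc
      obtain ⟨F, h1, h2⟩ := exists_LF (htw q χ hq hχ hqM) hν (mul_span_ne_top hq)
      exact ⟨F, fun _ _ _ => ⟨h1, h2⟩⟩
    · exact ⟨0, fun h1 h2 h3 => absurd ⟨h1, h2, h3⟩ hc⟩
  choose F hF using hex
  -- the shift
  set V : ℝ := ∑ w, |ν w| with hV
  have hV0 : 0 ≤ V := Finset.sum_nonneg fun _ _ => abs_nonneg _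
  have hVν : ∀ w, |ν w| ≤ V := fun w =>
    Finset.single_le_sum (f := fun w => |ν w|) (fun _ _ => abs_nonneg _) (Finset.mem_univ w)
  obtain ⟨A₁, A₂, c₁, hA₁, hA₂, hc₁, hgood⟩ := good_tw hψ hν hV0 hVν
  set W : ℝ := V + 1 with hW
  have hW0 : 0 ≤ W := by linarith
  have hd : (1 : ℝ) ≤ (Module.finrank ℚ K : ℝ) := by
    have := Module.finrank_pos (R := ℚ) (M := K)
    exact_mod_cast this
  obtain ⟨G, hG⟩ : ∃ G : (q : ℕ) → DirichletCharacter ℂ q → ℂ → ℂ,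
    G = fun q χ z => F q χ (z + (W : ℂ) * I) := ⟨_, rfl⟩
  have hGq : ∀ (q : ℕ) (χ : DirichletCharacter ℂ q), G q χ = fun z => F q χ (z + (W : ℂ) * I) :=
    fun q χ => by rw [hG]
  have hTw : W388.TwE (Module.finrank ℚ K : ℝ) A₂ M
      (fun m => cc ψ m * (m : ℂ) ^ (-((W : ℂ) * I))) G := by
    intro q χ hq hqM hχ
    obtain ⟨h1, h2⟩ := hF q χ hq hqM hχ
    rw [hGq]
    exact (hgood q χ (F q χ) hq (htw q χ hq hχ hqM) h1 h2).2
  -- the constants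
  obtain ⟨κ₁, hκ1, hκ3⟩ := exists_between hκ
  obtain ⟨κ, η, X0, hκ', hη, hX0, hfin⟩ := W388.final_of_const_E (Module.finrank ℚ K : ℝ) A₂ hd hA₂ M
    hMsq _ G hTw (selE_shift hSel W) γ κ₁ h0 hπ hκ1
  obtain ⟨ε, hε⟩ : ∃ ε : ℝ, ε = (κ₀ - κ₁) / (6 + |κ₀|) := ⟨_, rfl⟩
  have hε0 : 0 < ε := by
    rw [hε]
    have := abs_nonneg κ₀
    exact div_pos (by linarith) (by linarith)
  have hεκ : ε * (6 + |κ₀|) = κ₀ - κ₁ := by
    rw [hε]
    have := abs_nonneg κ₀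
    field_simp
  obtain ⟨X1, hX1, hcmp⟩ := cmp_main (Module.finrank ℚ K : ℝ) A₁ W hd hA₁ hW0 ε hε0
  refine ⟨F, ?_, κ, min η 1, max (max X0 X1) (max c₁ 2), hκ', lt_min hη one_pos,
    le_max_of_le_left (le_max_of_le_left hX0), ?_⟩
  · intro q χ hq hqN hχ
    exact hF q χ hq ((W388.coprime_rad hN0 q).mpr hqN) hχ
  · intro X Y T a1 a2 a3 a4 a5
    have hXX0 : X0 ≤ (X : ℝ) := ((le_max_left _ _).trans (le_max_left _ _)).trans a1
    have hXX1 : X1 ≤ (X : ℝ) := ((le_max_right _ _).trans (le_max_left _ _)).trans a1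
    have hXc : c₁ ≤ (X : ℝ) := ((le_max_left _ _).trans (le_max_right _ _)).trans a1
    have hX2 : (2 : ℝ) ≤ (X : ℝ) := ((le_max_right _ _).trans (le_max_right _ _)).trans a1
    have hX1' : (1 : ℝ) ≤ (X : ℝ) := by linarith
    have a3' : (Y : ℝ) ≤ (X : ℝ) ^ (1 + η) := a3.trans
      (Real.rpow_le_rpow_of_exponent_le hX1' (by linarith [min_le_left η 1]))
    have a5' : T ≤ (X : ℝ) ^ η := a5.trans
      (Real.rpow_le_rpow_of_exponent_le hX1' (min_le_left _ _))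
    have hY2 : (Y : ℝ) ≤ (X : ℝ) ^ 2 := by
      refine a3.trans ?_
      have := Real.rpow_le_rpow_of_exponent_le hX1' (show 1 + min η 1 ≤ ((2 : ℕ) : ℝ) by
        push_cast
        linarith [min_le_right η 1])
      rwa [Real.rpow_natCast] at this
    have hTX : T ≤ (X : ℝ) := by
      have := a5.trans (Real.rpow_le_rpow_of_exponent_le hX1' (min_le_right η 1))
      rwa [Real.rpow_one] at this
    obtain ⟨b1, b2⟩ := hfin X Y T hXX0 a2 a3' a4 a5'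
    -- comparison
    have hc : ∀ (q : ℕ) (χ : DirichletCharacter ℂ q), X < q → q ≤ Y → Nat.Coprime q M →
        χ.IsPrimitive →
        (NN (F q χ) T (2 * T) : ℝ) ≤ (1 + ε) * NN (G q χ) T (2 * T) ∧
        (Ns (G q χ) T (2 * T) : ℝ) ≤ Ns (F q χ) T (2 * T) + ε * NN (G q χ) T (2 * T) ∧
        (Nd (G q χ) T (2 * T) : ℝ) ≤ Nd (F q χ) T (2 * T) + ε * NN (G q χ) T (2 * T) := by
      intro q χ hXq hqY hqM hχ
      have hX2n : 2 ≤ X := by exact_mod_cast hX2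
      have hq2 : 2 ≤ q := by omega
      obtain ⟨h1, h2⟩ := hF q χ hq2 hqM hχ
      obtain ⟨⟨a, ha⟩, -⟩ := hgood q χ (F q χ) hq2 (htw q χ hq2 hχ hqM) h1 h2
      rw [hGq]
      have hqX : (X : ℝ) ≤ (q : ℝ) := by exact_mod_cast hXq.le
      have hqYr : (q : ℝ) ≤ (Y : ℝ) := by exact_mod_cast hqY
      refine hcmp (X : ℝ) (c₁ * q) T (F q χ) a hXX1 ?_ ?_ a4 hTX ha
      · nlinarith
      · calc c₁ * (q : ℝ) ≤ X * (X : ℝ) ^ 2 := by
              refine mul_le_mul hXc (hqYr.trans hY2) (by positivity) (by positivity)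
          _ = (X : ℝ) ^ 3 := by ring
    obtain ⟨SF, hSF⟩ : ∃ S : ℝ, S = primFamM M X Y (fun q χ => (NN (F q χ) T (2 * T) : ℝ)) :=
      ⟨_, rfl⟩
    obtain ⟨SG, hSG⟩ : ∃ S : ℝ, S = primFamM M X Y (fun q χ => (NN (G q χ) T (2 * T) : ℝ)) :=
      ⟨_, rfl⟩
    have hSG0 : 0 ≤ SG := by
      rw [hSG]
      exact H385.primFamM_nonneg _ _ _ _ (fun _ _ => Nat.cast_nonneg _)
    have hSF0 : 0 ≤ SF := by
      rw [hSF]
      exact H385.primFamM_nonneg _ _ _ _ (fun _ _ => Nat.cast_nonneg _)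
    have e1 : SF ≤ (1 + ε) * SG := by
      have h1 := H385.primFamM_mono M X Y (fun q χ => (NN (F q χ) T (2 * T) : ℝ))
        (fun q χ => (1 + ε) * (NN (G q χ) T (2 * T) : ℝ) - 0 * (NN (G q χ) T (2 * T) : ℝ))
        (fun q χ h1 h2 h3 h4 => by
          rw [zero_mul, sub_zero]
          exact (hc q χ h1 h2 h3 h4).1)
      rw [H385.primFamM_lin, zero_mul, sub_zero, ← hSG, ← hSF] at h1
      exact h1
    have e2 : primFamM M X Y (fun q χ => (Ns (G q χ) T (2 * T) : ℝ)) - ε * SG ≤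
        primFamM M X Y (fun q χ => (Ns (F q χ) T (2 * T) : ℝ)) := by
      have h1 := H385.primFamM_mono M X Y
        (fun q χ => 1 * (Ns (G q χ) T (2 * T) : ℝ) - ε * (NN (G q χ) T (2 * T) : ℝ))
        (fun q χ => (Ns (F q χ) T (2 * T) : ℝ))
        (fun q χ h1 h2 h3 h4 => by
          have := (hc q χ h1 h2 h3 h4).2.1
          linarith)
      rwa [H385.primFamM_lin, one_mul, ← hSG] at h1
    have e3 : primFamM M X Y (fun q χ => (Nd (G q χ) T (2 * T) : ℝ)) - ε * SG ≤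
        primFamM M X Y (fun q χ => (Nd (F q χ) T (2 * T) : ℝ)) := by
      have h1 := H385.primFamM_mono M X Y
        (fun q χ => 1 * (Nd (G q χ) T (2 * T) : ℝ) - ε * (NN (G q χ) T (2 * T) : ℝ))
        (fun q χ => (Nd (F q χ) T (2 * T) : ℝ))
        (fun q χ h1 h2 h3 h4 => by
          have := (hc q χ h1 h2 h3 h4).2.2
          linarith)
      rwa [H385.primFamM_lin, one_mul, ← hSG] at h1
    rw [← hSG] at b1 b2
    have hκa : -|κ₀| ≤ κ₀ := neg_abs_le κ₀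
    have key1 : (2 - κ₀) * SF ≤ primFamM M X Y (fun q χ => (Ns (F q χ) T (2 * T) : ℝ)) := by
      have h1 : (2 - κ₀) * SF ≤ (2 - κ₀) * ((1 + ε) * SG) :=
        mul_le_mul_of_nonneg_left e1 (by linarith)
      have p := mul_le_mul_of_nonneg_left (show 2 - κ₀ ≤ 5 + |κ₀| by linarith) hε0.le
      have h2 : (2 - κ₀) * (1 + ε) ≤ 2 - κ₁ - ε := by linarith
      have h3 : (2 - κ₀) * (1 + ε) * SG ≤ (2 - κ₁ - ε) * SG := mul_le_mul_of_nonneg_right h2 hSG0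
      linarith
    have key2 : (3 - κ₀) / 2 * SF ≤ primFamM M X Y (fun q χ => (Nd (F q χ) T (2 * T) : ℝ)) := by
      have h1 : (3 - κ₀) / 2 * SF ≤ (3 - κ₀) / 2 * ((1 + ε) * SG) :=
        mul_le_mul_of_nonneg_left e1 (by linarith)
      have p := mul_le_mul_of_nonneg_left (show 3 - κ₀ ≤ 4 + |κ₀| by linarith) hε0.le
      have h2 : (3 - κ₀) / 2 * (1 + ε) ≤ (3 - κ₁) / 2 - ε := by linarith
      have h3 : (3 - κ₀) / 2 * (1 + ε) * SG ≤ ((3 - κ₁) / 2 - ε) * SG :=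
        mul_le_mul_of_nonneg_right h2 hSG0
      linarith
    rw [hSF] at key1 key2
    simp only [hM, W388.primFamM_rad hN0] at key1 key2
    exact ⟨key1, key2⟩

/-- **Zeros on the critical line**, real quadratic fields -/
theorem fin_two (hd : Module.finrank ℚ K = 2)
    {𝔣 : Ideal (𝓞 K)} {ν : InfinitePlace K → ℝ} {ψ : Ideal (𝓞 K) →*₀ ℂ}
    (h : IsHecke K 𝔣 ν ψ) (hν : ∑ w, ν w = 0) {p : ℕ} (hp : p.Prime)
    (hpf : ¬ p ∣ Ideal.absNorm 𝔣) {P P' : Ideal (𝓞 K)} (hP : Ideal.absNorm P = p)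
    (hP' : Ideal.absNorm P' = p) (hne : ψ P ≠ ψ P') :
    ∃ F : (q : ℕ) → DirichletCharacter ℂ q → ℂ → ℂ,
      (∀ (q : ℕ) (χ : DirichletCharacter ℂ q), 2 ≤ q →
        Nat.Coprime q (Ideal.absNorm 𝔣 * (discr K).natAbs) → χ.IsPrimitive →
        Differentiable ℂ (F q χ) ∧ ∀ s : ℂ, 1 < s.re → F q χ s = LI (tw ψ χ) s) ∧
      ∃ κ η X0 : ℝ, 1 ≤ κ ∧ 0 < η ∧ 1 ≤ X0 ∧
      ∀ (X Y : ℕ) (T : ℝ), X0 ≤ X → κ * X ≤ Y → (Y : ℝ) ≤ (X : ℝ) ^ (1 + η) →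
        (Real.log X) ^ 2 ≤ T → T ≤ (X : ℝ) ^ η →
        0.6725 * primFamM (Ideal.absNorm 𝔣 * (discr K).natAbs) X Y
            (fun q χ => (NN (F q χ) T (2 * T) : ℝ)) ≤
          primFamM (Ideal.absNorm 𝔣 * (discr K).natAbs) X Y
            (fun q χ => (Ns (F q χ) T (2 * T) : ℝ)) ∧
        0.83625 * primFamM (Ideal.absNorm 𝔣 * (discr K).natAbs) X Y
            (fun q χ => (NN (F q χ) T (2 * T) : ℝ)) ≤
          primFamM (Ideal.absNorm 𝔣 * (discr K).natAbs) X Y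
            (fun q χ => (Nd (F q χ) T (2 * T) : ℝ)) := by
  have hS := (sel_tot (Or.inl hd) hν h.toIsHM hp hpf hP hP' hne).2
  obtain ⟨F, hF, κ, η, X0, hκ, hη, hX0, hfin⟩ := fin_of h hν hS 1.414 1.3275 (by norm_num)
    (by linarith [Real.pi_gt_three]) (by norm_num) (by
      rw [hd]
      have := H385.Rw_const_d2
      norm_num at this ⊢
      exact this)
  refine ⟨F, hF, κ, η, X0, hκ, hη, hX0, fun X Y T a1 a2 a3 a4 a5 => ?_⟩
  obtain ⟨b1, b2⟩ := hfin X Y T a1 a2 a3 a4 a5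
  norm_num at b1 b2 ⊢
  exact ⟨b1, b2⟩

/-- **Zeros on the critical line**, totally real cubic fields -/
theorem fin_three (hd : Module.finrank ℚ K = 3)
    {𝔣 : Ideal (𝓞 K)} {ν : InfinitePlace K → ℝ} {ψ : Ideal (𝓞 K) →*₀ ℂ}
    (h : IsHecke K 𝔣 ν ψ) (hν : ∑ w, ν w = 0) {p : ℕ} (hp : p.Prime)
    (hpf : ¬ p ∣ Ideal.absNorm 𝔣) {P P' : Ideal (𝓞 K)} (hP : Ideal.absNorm P = p)
    (hP' : Ideal.absNorm P' = p) (hne : ψ P ≠ ψ P') :
    ∃ F : (q : ℕ) → DirichletCharacter ℂ q → ℂ → ℂ,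
      (∀ (q : ℕ) (χ : DirichletCharacter ℂ q), 2 ≤ q →
        Nat.Coprime q (Ideal.absNorm 𝔣 * (discr K).natAbs) → χ.IsPrimitive →
        Differentiable ℂ (F q χ) ∧ ∀ s : ℂ, 1 < s.re → F q χ s = LI (tw ψ χ) s) ∧
      ∃ κ η X0 : ℝ, 1 ≤ κ ∧ 0 < η ∧ 1 ≤ X0 ∧
      ∀ (X Y : ℕ) (T : ℝ), X0 ≤ X → κ * X ≤ Y → (Y : ℝ) ≤ (X : ℝ) ^ (1 + η) →
        (Real.log X) ^ 2 ≤ T → T ≤ (X : ℝ) ^ η →
        0.27945 * primFamM (Ideal.absNorm 𝔣 * (discr K).natAbs) X Y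
            (fun q χ => (NN (F q χ) T (2 * T) : ℝ)) ≤
          primFamM (Ideal.absNorm 𝔣 * (discr K).natAbs) X Y
            (fun q χ => (Ns (F q χ) T (2 * T) : ℝ)) ∧
        0.639725 * primFamM (Ideal.absNorm 𝔣 * (discr K).natAbs) X Y
            (fun q χ => (NN (F q χ) T (2 * T) : ℝ)) ≤
          primFamM (Ideal.absNorm 𝔣 * (discr K).natAbs) X Y
            (fun q χ => (Nd (F q χ) T (2 * T) : ℝ)) := by
  have hS := (sel_tot (Or.inr hd) hν h.toIsHM hp hpf hP hP' hne).2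
  obtain ⟨F, hF, κ, η, X0, hκ, hη, hX0, hfin⟩ := fin_of h hν hS 0.943 1.72055 (by norm_num)
    (by linarith [Real.pi_gt_three]) (by norm_num) (by
      rw [hd]
      exact_mod_cast Pool.Agent.Y772.NC.Rw_const_d3)
  refine ⟨F, hF, κ, η, X0, hκ, hη, hX0, fun X Y T a1 a2 a3 a4 a5 => ?_⟩
  obtain ⟨b1, b2⟩ := hfin X Y T a1 a2 a3 a4 a5
  norm_num at b1 b2 ⊢
  exact ⟨b1, b2⟩

end Pool.Agent.Y772.HI
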