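import Pool.Agent.Y772.HI.Ray
import Pool.Agent.Y772.TW.Main

/-!
# Twists of primitive Hecke characters are primitive
-/

set_option autoImplicit false
set_option linter.unusedSectionVars false

open NumberField Complex

namespace Pool.Agent.Y772.HI

open Pool.Agent.Y773 (LI TPos cc tw)
open Pool.Agent.Y767
open Pool.Agent.Y772.TW hiding psi_congr tw_prim t_tw
open Pool.Agent.Y772.DK
open Pool.Agent.Y772.SG (coprime_iff coprime_congr)

lemma tpos_ne {K : Type} [Field K] [NumberField K] [IsTotallyReal K] {x : 𝓞 K} (hx : TPos K x) :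
    x ≠ 0 := by
  rintro rfl
  obtain ⟨w⟩ : Nonempty (InfinitePlace K) := inferInstance
  have := hx (Y773.rl w)
  simp at this

/-- the value of a Hecke character on totally positive integers depends on the class -/
lemma psi_congr {K : Type} [Field K] [NumberField K] [IsTotallyReal K] {𝔣 : Ideal (𝓞 K)}
    {ν : InfinitePlace K → ℝ} {ψ : Ideal (𝓞 K) →*₀ ℂ} (hψ : IsHM K 𝔣 ν ψ)
    {x y : 𝓞 K} (hx : TPos K x) (hy : TPos K y)
    (hc : IsCoprime (Ideal.span {x}) 𝔣)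
    (h : y - x ∈ 𝔣) : ψ (Ideal.span {x}) * ax ν (y : K) = ψ (Ideal.span {y}) * ax ν (x : K) := by
  have hx0 := tpos_ne hx
  have hy0 := tpos_ne hy
  obtain ⟨z₀, hz₀⟩ := coprime_iff.1 hc
  have hN : 0 < Ideal.absNorm 𝔣 :=
    Nat.pos_of_ne_zero (by rw [Ne, Ideal.absNorm_eq_zero_iff]; exact hψ.ne_bot)
  obtain ⟨k, hk1, hk2⟩ := exists_tpos z₀ hN
  set z : 𝓞 K := z₀ + (k : 𝓞 K) * (Ideal.absNorm 𝔣 : 𝓞 K) with hz
  have hxz : x * z - 1 ∈ 𝔣 := by
    have : x * z - 1 = (x * z₀ - 1) + (x * k) * (Ideal.absNorm 𝔣 : 𝓞 K) := by rw [hz]; ring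
    rw [this]
    exact 𝔣.add_mem hz₀ (𝔣.mul_mem_left _ (Ideal.absNorm_mem 𝔣))
  have hyz : y * z - 1 ∈ 𝔣 := by
    have : y * z - 1 = z * (y - x) + (x * z - 1) := by ring
    rw [this]
    exact 𝔣.add_mem (𝔣.mul_mem_left _ h) hxz
  have hpos : ∀ t : 𝓞 K, TPos K t → TPos K (t * z) := by
    intro t ht σ
    push_cast
    rw [map_mul]
    exact mul_pos (ht σ) (hk1 σ)
  have h1 := hψ.ray _ hxz (hpos x hx)
  have h2 := hψ.ray _ hyz (hpos y hy)
  rw [← Ideal.span_singleton_mul_span_singleton, map_mul, ax_coe_mul ν hx0 hk2] at h1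
  rw [← Ideal.span_singleton_mul_span_singleton, map_mul, ax_coe_mul ν hy0 hk2] at h2
  have hz0 : ψ (Ideal.span {z}) ≠ 0 := by
    intro h0
    rw [h0, mul_zero] at h1
    exact mul_ne_zero (ax_ne _ _) (ax_ne _ _) h1.symm
  refine mul_right_cancel₀ hz0 ?_
  calc ψ (Ideal.span {x}) * ax ν (y : K) * ψ (Ideal.span {z})
      = (ψ (Ideal.span {x}) * ψ (Ideal.span {z})) * ax ν (y : K) := by ring
    _ = (ψ (Ideal.span {y}) * ψ (Ideal.span {z})) * ax ν (x : K) := by rw [h1, h2]; ring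
    _ = _ := by ring

/-- TW -/
theorem tw_hecke {K : Type} [Field K] [NumberField K] [IsTotallyReal K] {𝔣 : Ideal (𝓞 K)}
    {ν : InfinitePlace K → ℝ} {ψ : Ideal (𝓞 K) →*₀ ℂ} (hψ : IsHecke K 𝔣 ν ψ) {q : ℕ}
    (χ : DirichletCharacter ℂ q)
    (hq : 1 ≤ q) (hχ : χ.IsPrimitive) (hN : Nat.Coprime q (Ideal.absNorm 𝔣))
    (hdisc : IsCoprime (q : ℤ) (discr K)) :
    IsHecke K (𝔣 * Ideal.span {(q : 𝓞 K)}) ν (tw ψ χ) := by
  classical
  have hq0 : 0 < q := hq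
  have hcop : IsCoprime 𝔣 (Ideal.span {(q : 𝓞 K)}) := coprime_q.2 hN.symm
  have hQ0 : (Ideal.span {(q : 𝓞 K)} : Ideal (𝓞 K)) ≠ 0 := by
    rw [Ne, Ideal.zero_eq_bot, Ideal.span_singleton_eq_bot]
    exact_mod_cast hq0.ne'
  have htw : ∀ 𝔞 : Ideal (𝓞 K), tw ψ χ 𝔞 = ψ 𝔞 * χ ((Ideal.absNorm 𝔞 : ℕ) : ZMod q) :=
    fun 𝔞 => rfl
  -- the value at totally positive integers
  have hval : ∀ z : 𝓞 K, TPos K z → tw ψ χ (Ideal.span {z}) =
      ψ (Ideal.span {z}) * χ ((Algebra.norm ℤ z : ℤ) : ZMod q) := by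
    intro z hz
    rw [htw]
    congr 2
    have := absNorm_tpos (tpos_ne hz) hz
    rw [← this]
    simp
  have hone : ∀ z : 𝓞 K, z - 1 ∈ Ideal.span {(q : 𝓞 K)} →
      χ ((Algebra.norm ℤ z : ℤ) : ZMod q) = 1 := by
    intro z hz
    rw [norm_eq_of_sub hz, map_one, Int.cast_one, map_one]
  have hmul1 : 𝔣 * Ideal.span {(q : 𝓞 K)} ≤ 𝔣 := Ideal.mul_le_left
  have hmul2 : 𝔣 * Ideal.span {(q : 𝓞 K)} ≤ Ideal.span {(q : 𝓞 K)} := Ideal.mul_le_right
  have hcone : ∀ (J : Ideal (𝓞 K)) (z : 𝓞 K), z - 1 ∈ J → IsCoprime (Ideal.span {z}) J := by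
    intro J z hz
    exact coprime_iff.2 ⟨1, by rwa [mul_one]⟩
  refine ⟨⟨mul_ne_zero hψ.ne_bot hQ0, fun 𝔞 h𝔞 => ?_, fun x hx hpos => ?_⟩, fun 𝔤 hg1 hg2 => ?_⟩
  · rw [IsCoprime.mul_right_iff, htw, mul_ne_zero_iff, hψ.supp 𝔞 h𝔞, coprime_q]
    refine and_congr Iff.rfl ?_
    rw [← ZMod.isUnit_iff_coprime]
    constructor
    · intro h
      by_contra h1
      exact h (χ.map_nonunit h1)
    · intro h
      exact (h.map χ).ne_zero
  · have h1 := hψ.ray x (hmul1 hx) hpos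
    rw [hval x hpos, h1, hone x (hmul2 hx), mul_one]
  · obtain ⟨𝔤₁, 𝔤₂, h1, h2, rfl⟩ := exists_dvd_and_dvd_of_dvd_mul hg1
    have hle1 : 𝔣 ≤ 𝔤₁ := Ideal.dvd_iff_le.1 h1
    have hle2 : Ideal.span {(q : 𝓞 K)} ≤ 𝔤₂ := Ideal.dvd_iff_le.1 h2
    have hcop12 : IsCoprime 𝔤₁ 𝔤₂ := hcop.of_isCoprime_of_dvd_left h1 |>.of_isCoprime_of_dvd_right h2
    have hmem : ∀ z : 𝓞 K, z ∈ 𝔤₁ → z ∈ 𝔤₂ → z ∈ 𝔤₁ * 𝔤₂ := by
      intro z hz1 hz2
      rw [Ideal.mul_eq_inf_of_coprime (Ideal.isCoprime_iff_sup_eq.1 hcop12)]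
      exact ⟨hz1, hz2⟩
    by_cases hc : 𝔤₁ = 𝔣
    · -- case (ii)
      have hg2' : 𝔤₂ ≠ Ideal.span {(q : 𝓞 K)} := by
        intro h
        exact hg2 (by rw [hc, h])
      obtain ⟨𝔥, h𝔥⟩ := h2
      have h𝔥0 : 𝔥 ≠ 0 := by
        rintro rfl
        rw [mul_zero] at h𝔥
        exact hQ0 h𝔥
      have h𝔥1 : ¬ IsUnit 𝔥 := by
        intro h
        rw [Ideal.isUnit_iff] at h
        rw [h, Ideal.mul_top] at h𝔥
        exact hg2' h𝔥.symm
      obtain ⟨P, hPi, 𝔥', rfl⟩ := WfDvdMonoid.exists_irreducible_factor h𝔥1 h𝔥0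
      have hPp : Prime P := UniqueFactorizationMonoid.irreducible_iff_prime.1 hPi
      obtain ⟨p, hp, hover⟩ := below hPp
      have hPprime : P.IsPrime := Ideal.isPrime_of_prime hPp
      have hover2 : P.LiesOver (Ideal.span {(p : ℤ)}) := hover.2
      have hmemP : ∀ n : ℕ, ((n : 𝓞 K)) ∈ P ↔ p ∣ n := by
        intro n
        have h3 : (n : ℤ) ∈ Ideal.span {(p : ℤ)} ↔ algebraMap ℤ (𝓞 K) (n : ℤ) ∈ P :=
          P.mem_of_liesOver (Ideal.span {(p : ℤ)}) (n : ℤ)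
        rw [Ideal.mem_span_singleton] at h3
        simp only [algebraMap_int_eq, eq_intCast, Int.cast_natCast] at h3
        rw [← h3]
        exact Int.natCast_dvd_natCast
      have hpP : Ideal.span {(p : 𝓞 K)} ≤ P := by
        rw [Ideal.span_singleton_le_iff_mem]
        exact (hmemP p).2 dvd_rfl
      obtain ⟨P', hPP'⟩ := Ideal.dvd_iff_le.2 hpP
      have hPQ : Ideal.span {(q : 𝓞 K)} ≤ P := by
        rw [h𝔥]
        exact Ideal.dvd_iff_le.1 ⟨𝔤₂ * 𝔥', by ring⟩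
      have hpq : p ∣ q := by
        rw [Ideal.span_singleton_le_iff_mem] at hPQ
        exact (hmemP q).1 hPQ
      have hpd : ¬ (p : ℤ) ∣ discr K := by
        intro h
        have h3 : (p : ℤ) ∣ q := by exact_mod_cast hpq
        have h4 := hdisc.isUnit_of_dvd' h3 h
        rw [Int.isUnit_iff] at h4
        have := hp.two_le
        omega
      obtain ⟨m, rfl⟩ := hpq
      have hm0 : 0 < m := Nat.pos_of_mul_pos_left hq0
      obtain ⟨t, ht1, ht2, ht3⟩ := prim_char hp hm0 χ hχ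
      obtain ⟨y, hy1, hy2⟩ := norm_surj hq0 hp (Dvd.intro m rfl) hpd hPprime hPP'.symm t
        (by rwa [Nat.mul_div_cancel_left m hp.pos])
      rw [Nat.mul_div_cancel_left m hp.pos] at hy1
      -- (m) P' ≤ 𝔤₂
      have hmP' : Ideal.span {(m : 𝓞 K)} * P' ≤ 𝔤₂ := by
        have h3 : 𝔤₂ * 𝔥' = Ideal.span {(m : 𝓞 K)} * P' := by
          have h4 : P * (𝔤₂ * 𝔥') = P * (Ideal.span {(m : 𝓞 K)} * P') := by
            calc P * (𝔤₂ * 𝔥') = 𝔤₂ * (P * 𝔥') := by ring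
              _ = Ideal.span {((p * m : ℕ) : 𝓞 K)} := h𝔥.symm
              _ = Ideal.span {(p : 𝓞 K)} * Ideal.span {(m : 𝓞 K)} := by
                rw [Ideal.span_singleton_mul_span_singleton]; push_cast; rfl
              _ = _ := by rw [hPP']; ring
          exact mul_left_cancel₀ hPp.ne_zero h4
        rw [← h3]
        exact Ideal.mul_le_left
      obtain ⟨z, hz1, hz2, hz3, hz4⟩ := crt_tpos hψ.ne_bot hq0 hcop 1 y
      have hNz : ((Algebra.norm ℤ z : ℤ) : ZMod (p * m)) = (t : ZMod (p * m)) := by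
        rw [norm_eq_of_sub hz2, hy2]
      refine ⟨z, hmem _ (hle1 hz1) ?_, hz3, ?_, ?_⟩
      · have : z - 1 = (z - y) + (y - 1) := by ring
        rw [this]
        exact 𝔤₂.add_mem (hle2 hz2) (hmP' hy1)
      · rw [IsCoprime.mul_right_iff]
        refine ⟨hcone _ _ hz1, coprime_q.2 ?_⟩
        rw [← ZMod.isUnit_iff_coprime]
        have h5 : ((Ideal.absNorm (Ideal.span {z}) : ℕ) : ZMod (p * m)) =
            ((Algebra.norm ℤ z : ℤ) : ZMod (p * m)) := by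
          rw [← absNorm_tpos hz4 hz3]
          simp
        rw [h5, hNz]
        exact ht2
      · rw [hval z hz3, hψ.ray z hz1 hz3, hNz]
        intro h6
        apply ht3
        exact mul_left_cancel₀ (ax_ne ν (z : K)) (by rw [h6, mul_one])
    · -- case (i)
      obtain ⟨x₀, hx1, hx2, hx3, hx4⟩ := hψ.prim 𝔤₁ h1 hc
      obtain ⟨z, hz1, hz2, hz3, hz4⟩ := crt_tpos hψ.ne_bot hq0 hcop x₀ 1
      refine ⟨z, hmem _ ?_ (hle2 hz2), hz3, ?_, ?_⟩
      · have : z - 1 = (z - x₀) + (x₀ - 1) := by ring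
        rw [this]
        exact 𝔤₁.add_mem (hle1 hz1) hx1
      · rw [IsCoprime.mul_right_iff]
        exact ⟨coprime_congr hz1 hx3, hcone _ _ hz2⟩
      · rw [hval z hz3, hone z hz2, mul_one]
        intro h6
        have h7 := psi_congr hψ.toIsHM hx2 hz3 hx3 hz1
        rw [h6, mul_comm] at h7
        exact hx4 (mul_left_cancel₀ (ax_ne ν (z : K)) h7)

end Pool.Agent.Y772.HI
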