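import Pool.Agent.Y767.HC.Good
import Pool.Agent.Y772.HI.Tw
import Pool.Agent.Y773.HK.Asm
import Pool.Agent.W388.TW.Final

/-!
# The twists satisfy the analytic axioms, uniformly
-/

set_option autoImplicit false
set_option linter.unusedSectionVars false

open NumberField Complex Filter Topology Set MeasureTheory

namespace Pool.Agent.Y772.HI

open Pool.Agent.Y773 (LI TPos cc tw VM mul_span_ne_top absNorm_span_nat)
open Pool.Agent.Y767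

variable {K : Type} [Field K] [NumberField K] [IsTotallyReal K]

/-- from the axioms with a fixed multiple of the conductor -/
lemma good_conv {d A₁ c₁ A₀ : ℝ} (hd : 1 ≤ d) (hA₁ : 1 ≤ A₁) (hc₁ : 1 ≤ c₁) (hA₀ : 1 ≤ A₀)
    {Q : ℝ} (hQ : 1 ≤ Q) {G : ℂ → ℂ} {a : ℕ → ℂ} (g : W388.LV.GoodG d A₁ (c₁ * Q) G a)
    (h1 : Summable (fun n : ℕ => ‖a n‖ * (n : ℝ) ^ (-(3 / 2) : ℝ)))
    (h2 : ∑' n : ℕ, ‖a n‖ * (n : ℝ) ^ (-(3 / 2) : ℝ) ≤ A₀) :
    W388.GoodE d (max (max (A₁ * c₁ ^ A₁) (A₁ + d * Real.log c₁)) A₀) Q G a := by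
  obtain ⟨A₂, hA₂⟩ : ∃ A₂ : ℝ, A₂ = max (max (A₁ * c₁ ^ A₁) (A₁ + d * Real.log c₁)) A₀ := ⟨_, rfl⟩
  rw [← hA₂]
  have hc0 : 0 < c₁ := by linarith
  have hcA : 1 ≤ c₁ ^ A₁ := Real.one_le_rpow hc₁ (by linarith)
  have hlc : 0 ≤ Real.log c₁ := Real.log_nonneg hc₁
  have b1 : A₁ * c₁ ^ A₁ ≤ A₂ := by rw [hA₂]; exact (le_max_left _ _).trans (le_max_left _ _)
  have b2 : A₁ + d * Real.log c₁ ≤ A₂ := by
    rw [hA₂]; exact (le_max_right _ _).trans (le_max_left _ _)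
  have b3 : A₀ ≤ A₂ := by rw [hA₂]; exact le_max_right _ _
  have b4 : A₁ ≤ A₂ := by nlinarith
  refine
    { an := g.an
      growth := ?_
      lower := ?_
      nzr := g.nzr
      nzl := g.nzl
      symm := g.symm
      ha1 := g.ha1
      has := h1
      ha := h2.trans b3
      ld := g.ld
      left := ?_ }
  · intro s h3 h4 h5
    refine (g.growth s h3 h4 h5).trans ?_
    have h6 : 1 ≤ Q * s.im := by nlinarith
    have e : (c₁ * Q * s.im) ^ A₁ = c₁ ^ A₁ * (Q * s.im) ^ A₁ := by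
      rw [mul_assoc, Real.mul_rpow hc0.le (by linarith)]
    rw [e, ← mul_assoc]
    refine mul_le_mul b1 (Real.rpow_le_rpow_of_exponent_le h6 b4) (by positivity) (by linarith)
  · intro t ht
    refine le_trans ?_ (g.lower t ht)
    exact inv_anti₀ (by linarith) b4
  · intro s h3 h4 h5 h6
    have h7 := g.left s (by linarith) h4 h5 h6
    have e : ((d * Real.log (Q * s.im) : ℝ) : ℂ) =
        ((d * Real.log (c₁ * Q * s.im) : ℝ) : ℂ) - ((d * Real.log c₁ : ℝ) : ℂ) := by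
      rw [← Complex.ofReal_sub]
      congr 1
      have h8 : 0 < Q * s.im := by nlinarith
      rw [mul_assoc c₁, Real.log_mul hc0.ne' h8.ne']
      ring
    rw [e]
    have e2 : deriv G s / G s + (((d * Real.log (c₁ * Q * s.im) : ℝ) : ℂ) -
        ((d * Real.log c₁ : ℝ) : ℂ)) +
        (starRingEnd ℂ) (deriv G (1 - (starRingEnd ℂ) s) / G (1 - (starRingEnd ℂ) s)) =
        (deriv G s / G s + ((d * Real.log (c₁ * Q * s.im) : ℝ) : ℂ) +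
        (starRingEnd ℂ) (deriv G (1 - (starRingEnd ℂ) s) / G (1 - (starRingEnd ℂ) s))) -
        ((d * Real.log c₁ : ℝ) : ℂ) := by ring
    rw [e2]
    refine (norm_sub_le _ _).trans ?_
    rw [Complex.norm_real, Real.norm_of_nonneg (mul_nonneg (by linarith) hlc)]
    linarith

/-- **the twists satisfy the analytic axioms** -/
theorem good_tw {𝔣 : Ideal (𝓞 K)} {ν : InfinitePlace K → ℝ} {ψ : Ideal (𝓞 K) →*₀ ℂ}
    (hψ : IsHecke K 𝔣 ν ψ) (hν : ∑ w, ν w = 0) {V : ℝ} (hV : 0 ≤ V) (hVν : ∀ w, |ν w| ≤ V) :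
    ∃ A₁ A₂ c₁ : ℝ, 1 ≤ A₁ ∧ 1 ≤ A₂ ∧ 1 ≤ c₁ ∧
      ∀ (q : ℕ) (χ : DirichletCharacter ℂ q) (F : ℂ → ℂ), 2 ≤ q →
        IsHecke K (𝔣 * Ideal.span {(q : 𝓞 K)}) ν (tw ψ χ) → Differentiable ℂ F →
        (∀ s : ℂ, 1 < s.re → F s = LI (tw ψ χ) s) →
        (∃ a : ℕ → ℂ, W388.LV.GoodG (Module.finrank ℚ K) A₁ (c₁ * q)
          (fun z => F (z + ((V + 1 : ℝ) : ℂ) * I)) a) ∧
        W388.GoodE (Module.finrank ℚ K) A₂ q (fun z => F (z + ((V + 1 : ℝ) : ℂ) * I))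
          (fun m => χ (m : ZMod q) * (cc ψ m * (m : ℂ) ^ (-(((V + 1 : ℝ) : ℂ) * I))) *
            (ArithmeticFunction.vonMangoldt m : ℂ)) := by
  obtain ⟨A₁, hA₁, hgood⟩ := good K V hV
  obtain ⟨A₀, hA₀, hD⟩ := Pool.Agent.Y772.DK.t_dirK K
  obtain ⟨-, -, -, -, -, -, -, -, d8, d9, d10⟩ := hD ψ (hm_norm_le hψ.toIsHM)
  set n : ℝ := (Module.finrank ℚ K : ℝ) with hn
  have hn1 : 1 ≤ n := by
    have := Module.finrank_pos (R := ℚ) (M := K)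
    rw [hn]; exact_mod_cast this
  have hn0 : 0 < n := by linarith
  have hN1 : (1 : ℝ) ≤ (Ideal.absNorm 𝔣 : ℝ) := by
    have : Ideal.absNorm 𝔣 ≠ 0 := by
      rw [Ne, Ideal.absNorm_eq_zero_iff]; exact hψ.ne_bot
    exact_mod_cast Nat.one_le_iff_ne_zero.mpr this
  set c₁ : ℝ := (Ideal.absNorm 𝔣 : ℝ) ^ (1 / n) with hc₁
  have hc₁1 : 1 ≤ c₁ := Real.one_le_rpow hN1 (by positivity)
  refine ⟨A₁, max (max (A₁ * c₁ ^ A₁) (A₁ + n * Real.log c₁)) A₀, c₁, hA₁,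
    le_max_of_le_right hA₀, hc₁1, fun q χ F hq hH hF hFL => ?_⟩
  have hQ : (Ideal.absNorm (𝔣 * Ideal.span {(q : 𝓞 K)}) : ℝ) ^ (1 / n) = c₁ * q := by
    rw [map_mul, absNorm_span_nat]
    push_cast
    rw [Real.mul_rpow (by positivity) (by positivity), ← hc₁]
    congr 1
    rw [← Real.rpow_natCast, ← Real.rpow_mul (by positivity), ← hn, mul_one_div_cancel hn0.ne',
      Real.rpow_one]
  have g := hgood (𝔣 * Ideal.span {(q : 𝓞 K)}) (mul_span_ne_top hq) ν (tw ψ χ) hVν hν hH F hF hFL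
  rw [hQ] at g
  have hq1 : (1 : ℝ) ≤ (q : ℝ) := by
    have : 1 ≤ q := by omega
    exact_mod_cast this
  have hcoef : (fun m : ℕ => χ (m : ZMod q) * (cc ψ m * (m : ℂ) ^ (-(((V + 1 : ℝ) : ℂ) * I))) *
      (ArithmeticFunction.vonMangoldt m : ℂ)) = fun m : ℕ => (cc (tw ψ χ) m *
        (ArithmeticFunction.vonMangoldt m : ℂ)) * (m : ℂ) ^ (-(((V + 1 : ℝ) : ℂ) * I)) := by
    funext m
    rw [d10 q χ m]
    ring
  refine ⟨⟨_, g⟩, ?_⟩
  have hle : ∀ m : ℕ, ‖χ (m : ZMod q) * (cc ψ m * (m : ℂ) ^ (-(((V + 1 : ℝ) : ℂ) * I))) *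
      (ArithmeticFunction.vonMangoldt m : ℂ)‖ * (m : ℝ) ^ (-(3 / 2) : ℝ) ≤
      ArithmeticFunction.vonMangoldt m * ‖cc ψ m‖ * (m : ℝ) ^ (-(3 / 2) : ℝ) := by
    intro m
    refine mul_le_mul_of_nonneg_right ?_ (by positivity)
    rcases Nat.eq_zero_or_pos m with rfl | hm
    · simp
    have h1 := DirichletCharacter.norm_le_one χ (m : ZMod q)
    have h2 : (0 : ℝ) ≤ ArithmeticFunction.vonMangoldt m := ArithmeticFunction.vonMangoldt_nonneg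
    have h3 : ‖(m : ℂ) ^ (-(((V + 1 : ℝ) : ℂ) * I))‖ = 1 := by
      rw [Complex.norm_natCast_cpow_of_pos hm]
      simp
    rw [norm_mul, norm_mul, norm_mul, h3, Complex.norm_real, Real.norm_of_nonneg h2, mul_one]
    calc ‖χ (m : ZMod q)‖ * ‖cc ψ m‖ * ArithmeticFunction.vonMangoldt m ≤
        1 * ‖cc ψ m‖ * ArithmeticFunction.vonMangoldt m := by gcongr
      _ = _ := by ring
  have hsum : Summable fun m : ℕ => ‖χ (m : ZMod q) *
      (cc ψ m * (m : ℂ) ^ (-(((V + 1 : ℝ) : ℂ) * I))) *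
      (ArithmeticFunction.vonMangoldt m : ℂ)‖ * (m : ℝ) ^ (-(3 / 2) : ℝ) :=
    Summable.of_nonneg_of_le (fun m => by positivity) hle d8
  rw [← hcoef] at g
  exact good_conv hn1 hA₁ hc₁1 hA₀ hq1 g hsum ((hsum.tsum_le_tsum hle d8).trans d9)

/-- the L-functions -/
theorem exists_LF {𝔣 : Ideal (𝓞 K)} {ν : InfinitePlace K → ℝ} {ψ : Ideal (𝓞 K) →*₀ ℂ}
    (hψ : IsHecke K 𝔣 ν ψ) (hν : ∑ w, ν w = 0) (hf : 𝔣 ≠ ⊤) :
    ∃ F : ℂ → ℂ, Differentiable ℂ F ∧ ∀ s : ℂ, 1 < s.re → F s = LI ψ s := by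
  obtain ⟨e, F, h1, h2⟩ := hψ.fe hν hf
  exact ⟨F, h1.diff, h2⟩

end Pool.Agent.Y772.HI
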