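import Pool.Agent.Y767.HC.NV
import Pool.Agent.Y772.NV.Tot

/-!
# Non-vanishing on the line `Re s = 1` for the Hecke characters of a totally real field, of
arbitrary infinity type
-/

set_option autoImplicit false

open NumberField Complex Filter Topology Ideal

namespace Pool.Agent.Y772.HI

open Pool.Agent.Y773 (LI TPos sg IsModChar StDirK VM cc)
open Pool.Agent.Y767
open Pool.Agent.Y772.NV (ab sq ab_one ab_zero sq_zero' NVData nv coprime_of_sub_one sg_zero)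

variable {K : Type} [Field K] [NumberField K] [IsTotallyReal K]

lemma modk_ab {𝔪 : Ideal (𝓞 K)} {κ : K → ℂ} {η : Ideal (𝓞 K) →*₀ ℂ}
    (h : IsModK 𝔪 κ η) : IsModChar 𝔪 (fun _ => 0) (ab η) where
  ne_bot := h.ne_bot
  ne_top := h.ne_top
  sig_le _ := Nat.zero_le _
  supp 𝔞 := by
    rw [← h.supp 𝔞]
    have h1 : ab η 𝔞 = η 𝔞 * (starRingEnd ℂ) (η 𝔞) := rfl
    rw [h1, mul_ne_zero_iff, map_ne_zero (starRingEnd ℂ), and_self]
  sig x hx hx1 := by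
    rw [sg_zero, ab_one (h.norm_eq_one (coprime_of_sub_one hx1))]

lemma sq_eq (η : Ideal (𝓞 K) →*₀ ℂ) : sq η = sqh η := rfl

theorem nvdata {𝔪 : Ideal (𝓞 K)} {e : InfinitePlace K → ℕ} {ν : InfinitePlace K → ℝ}
    {η : Ideal (𝓞 K) →*₀ ℂ} (he : ∀ w, e w ≤ 1) (hν : ∑ w, ν w = 0)
    (h : IsModK 𝔪 (kk e ν) η) : NVData η where
  unit 𝔞 := by
    by_cases h0 : IsCoprime 𝔞 𝔪
    · exact Or.inr (h.norm_eq_one h0)
    · left
      by_contra h1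
      exact h0 ((h.supp 𝔞).1 h1)
  pab := by
    obtain ⟨G, h1, h2, h3⟩ := NV.LI_pole (modk_ab h)
    exact ⟨G, h1, h2, h3 fun _ => rfl⟩
  peta := LI_cont he hν h
  psq := by
    rw [sq_eq]
    exact LI_cont (fun _ => zero_le_one) (by rw [← Finset.mul_sum, hν, mul_zero]) (h.sq hν)
  psq' := by
    by_cases hc : (fun w => 2 * ν w) ≠ 0 ∨ ∃ 𝔞, IsCoprime 𝔞 𝔪 ∧ sqh η 𝔞 ≠ 1
    · right
      rw [sq_eq]
      exact LI_entiren (fun _ => zero_le_one) (by rw [← Finset.mul_sum, hν, mul_zero]) (h.sq hν) hc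
    · left
      push Not at hc
      intro 𝔞
      by_cases h0 : IsCoprime 𝔞 𝔪
      · rw [sq_eq, hc.2 𝔞 h0, ab_one (h.norm_eq_one h0)]
      · have h1 : η 𝔞 = 0 := by
          by_contra h1
          exact h0 ((h.supp 𝔞).1 h1)
        rw [ab_zero h1, sq_zero' h1]

/-- **no zeros on `Re s = 1`**, for every Hecke character of a totally real field -/
theorem nv_K {𝔪 : Ideal (𝓞 K)} {e : InfinitePlace K → ℕ} {ν : InfinitePlace K → ℝ}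
    {η : Ideal (𝓞 K) →*₀ ℂ} (he : ∀ w, e w ≤ 1) (hν : ∑ w, ν w = 0)
    (h : IsModK 𝔪 (kk e ν) η) {s₀ : ℂ} (hs₀ : s₀.re = 1) {F : ℂ → ℂ} (hF : AnalyticAt ℂ F s₀)
    (hFL : ∀ᶠ s in 𝓝 s₀, 1 < s.re → F s = LI η s) : F s₀ ≠ 0 :=
  nv DK.t_dirK (nvdata he hν h) hs₀ hF hFL

/-- nontrivial characters have a regular nonzero L-function at `1` -/
lemma reg_one {𝔪 : Ideal (𝓞 K)} {e : InfinitePlace K → ℕ} {ν : InfinitePlace K → ℝ}
    {η : Ideal (𝓞 K) →*₀ ℂ} (he : ∀ w, e w ≤ 1) (hν : ∑ w, ν w = 0)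
    (h : IsModK 𝔪 (kk e ν) η) (hn : ∃ 𝔞, IsCoprime 𝔞 𝔪 ∧ η 𝔞 ≠ 1) :
    ∃ g : ℂ → ℂ, AnalyticAt ℂ g 1 ∧ g 1 ≠ 0 ∧
      ∀ᶠ s in 𝓝 (1 : ℂ), 1 < s.re → LI η s = g s := by
  obtain ⟨F, hF, hFs⟩ := LI_entiren he hν h (Or.inr hn)
  have h1 : ∀ᶠ s in 𝓝 (1 : ℂ), 1 < s.re → F s = LI η s := Eventually.of_forall hFs
  exact ⟨F, hF.analyticAt 1, nv_K he hν h one_re (hF.analyticAt 1) h1,
    Eventually.of_forall fun s hs => (hFs s hs).symm⟩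

end Pool.Agent.Y772.HI
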