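import Pool.Agent.Y772.HI.Fin
import Pool.Agent.Y773.HK.Art

/-!
# Zeros of the L-functions of degree two and three attached to Hecke characters of infinite order

Definitions and the two theorems, in a self-contained form.
-/

set_option autoImplicit false

open NumberField

namespace Pool.Agent.Y772.HI.Pub

section

variable (K : Type) [Field K] [NumberField K]

/-- `x` is totally positive. -/
def TotPos (x : 𝓞 K) : Prop := ∀ σ : K →+* ℝ, 0 < σ (x : K)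

/-- `∏_w |x|_w^(i ν_w)`, the product being over the infinite places of `K`. -/
noncomputable def arch (ν : InfinitePlace K → ℝ) (x : K) : ℂ :=
  Complex.exp (Complex.I * ((∑ w, ν w * Real.log (w x) : ℝ) : ℂ))

/-- `ψ`, as a function on the ideals of the totally real field `K` (zero on the ideals which are not
prime to `𝔣`), is a primitive unitary Hecke character of finite conductor `𝔣` and infinity type
`ν` (normalised by `∑ ν_w = 0`), with arbitrary signs at the real places.  Its order is infinite if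
`ν ≠ 0`. -/
structure IsHecke (𝔣 : Ideal (𝓞 K)) (ν : InfinitePlace K → ℝ) (ψ : Ideal (𝓞 K) →*₀ ℂ) : Prop where
  ne_bot : 𝔣 ≠ ⊥
  sum_zero : ∑ w, ν w = 0
  supp : ∀ 𝔞 : Ideal (𝓞 K), 𝔞 ≠ ⊥ → (ψ 𝔞 ≠ 0 ↔ IsCoprime 𝔞 𝔣)
  ray : ∀ x : 𝓞 K, x - 1 ∈ 𝔣 → TotPos K x → ψ (Ideal.span {x}) = arch K ν (x : K)
  prim : ∀ 𝔤 : Ideal (𝓞 K), 𝔤 ∣ 𝔣 → 𝔤 ≠ 𝔣 → ∃ x : 𝓞 K, x - 1 ∈ 𝔤 ∧ TotPos K x ∧
    IsCoprime (Ideal.span {x}) 𝔣 ∧ ψ (Ideal.span {x}) ≠ arch K ν (x : K)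

variable {K}

/-- `ψ` takes different values at two prime ideals of the same prime norm `p ∤ N𝔣` (for `K` of
degree two or three: the automorphic representation of `GL_2` or `GL_3` induced by `ψ` is
cuspidal). -/
def Irr (𝔣 : Ideal (𝓞 K)) (ψ : Ideal (𝓞 K) →*₀ ℂ) : Prop :=
  ∃ (p : ℕ) (P P' : Ideal (𝓞 K)), p.Prime ∧ ¬ p ∣ Ideal.absNorm 𝔣 ∧
    Ideal.absNorm P = p ∧ Ideal.absNorm P' = p ∧ ψ P ≠ ψ P'

/-- The Euler polynomial at `p`: `∏_{𝔭 ∣ p} (1 - ψ(𝔭) x^(f(𝔭)))`, where `f(𝔭)` is the residue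
degree; its degree in `x` is at most `[K : ℚ]`. -/
noncomputable def heckePoly (ψ : Ideal (𝓞 K) →*₀ ℂ) (p : ℕ) (x : ℂ) : ℂ :=
  ∏ᶠ 𝔭 ∈ {𝔭 : Ideal (𝓞 K) | 𝔭.IsPrime ∧ (p : 𝓞 K) ∈ 𝔭}, (1 - ψ 𝔭 * x ^ (𝔭.inertiaDeg ℤ))

/-- `F` is entire and, for `Re s > 1`, the product over the primes `p` of
`∏_{𝔭 ∣ p} (1 - ψ(𝔭) χ(N𝔭) N𝔭^(-s))⁻¹`; that is, `F` is the L-function of the twist by `χ` of the
representation induced by `ψ`. -/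
def IsL (ψ : Ideal (𝓞 K) →*₀ ℂ) (q : ℕ) (χ : DirichletCharacter ℂ q) (F : ℂ → ℂ) : Prop :=
  Differentiable ℂ F ∧ ∀ s : ℂ, 1 < s.re →
    HasProd (fun p : Nat.Primes =>
      (heckePoly ψ p (χ ((p : ℕ) : ZMod q) * ((p : ℕ) : ℂ) ^ (-s)))⁻¹) (F s)

end

/-- The zeros of `F` in the open critical strip with ordinate in `(T, 2T]`. -/
def zeros (F : ℂ → ℂ) (T : ℝ) : Set ℂ :=
  {s : ℂ | 0 < s.re ∧ s.re < 1 ∧ T < s.im ∧ s.im ≤ 2 * T ∧ F s = 0}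

/-- The number of these zeros, counted with multiplicity. -/
noncomputable def N₀ (F : ℂ → ℂ) (T : ℝ) : ℕ := ∑ᶠ s ∈ zeros F T, analyticOrderNatAt F s

/-- The number of those of them that are simple and lie on the critical line. -/
noncomputable def Ns (F : ℂ → ℂ) (T : ℝ) : ℕ :=
  {s : ℂ | s ∈ zeros F T ∧ s.re = 1 / 2 ∧ analyticOrderNatAt F s = 1}.ncard

/-- The number of distinct zeros. -/
noncomputable def Nd (F : ℂ → ℂ) (T : ℝ) : ℕ := (zeros F T).ncard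

/-- The sum of `g q χ / q²` over all primitive Dirichlet characters `χ` of conductor `q` prime to
`N`, `X < q ≤ Y`. -/
noncomputable def fam (N X Y : ℕ) (g : (q : ℕ) → DirichletCharacter ℂ q → ℕ) : ℝ :=
  ∑ q ∈ (Finset.Ioc X Y).filter (fun q => Nat.Coprime q N), (1 / (q : ℝ) ^ 2) *
    ∑ᶠ χ : {χ : DirichletCharacter ℂ q // χ.IsPrimitive}, (g q χ : ℝ)

section

variable {K : Type} [Field K] [NumberField K]

/-- The statement for the proportions `a` (simple zeros on the critical line) and `b` (distinct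
zeros). -/
def Stmt (𝔣 : Ideal (𝓞 K)) (ψ : Ideal (𝓞 K) →*₀ ℂ) (a b : ℝ) : Prop :=
    ∃ L : (q : ℕ) → DirichletCharacter ℂ q → ℂ → ℂ,
      (∀ (q : ℕ) (χ : DirichletCharacter ℂ q), 2 ≤ q →
        Nat.Coprime q (Ideal.absNorm 𝔣 * (discr K).natAbs) → χ.IsPrimitive → IsL ψ q χ (L q χ)) ∧
      ∃ κ η X₀ : ℝ, 1 ≤ κ ∧ 0 < η ∧ 1 ≤ X₀ ∧
        ∀ (X Y : ℕ) (T : ℝ), X₀ ≤ X → κ * X ≤ Y → (Y : ℝ) ≤ (X : ℝ) ^ (1 + η) →
        (Real.log X) ^ 2 ≤ T → T ≤ (X : ℝ) ^ η →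
        a * fam (Ideal.absNorm 𝔣 * (discr K).natAbs) X Y (fun q χ => N₀ (L q χ) T) ≤
          fam (Ideal.absNorm 𝔣 * (discr K).natAbs) X Y (fun q χ => Ns (L q χ) T) ∧
        b * fam (Ideal.absNorm 𝔣 * (discr K).natAbs) X Y (fun q χ => N₀ (L q χ) T) ≤
          fam (Ideal.absNorm 𝔣 * (discr K).natAbs) X Y (fun q χ => Nd (L q χ) T)

lemma toH {𝔣 : Ideal (𝓞 K)} {ν : InfinitePlace K → ℝ} {ψ : Ideal (𝓞 K) →*₀ ℂ}
    (h : IsHecke K 𝔣 ν ψ) : Pool.Agent.Y767.IsHecke K 𝔣 ν ψ :=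
  ⟨⟨h.ne_bot, h.supp, h.ray⟩, h.prim⟩

lemma conv {𝔣 : Ideal (𝓞 K)} {ψ : Ideal (𝓞 K) →*₀ ℂ} (hle : ∀ 𝔞, ‖ψ 𝔞‖ ≤ 1) (a b : ℝ)
    (H : ∃ F : (q : ℕ) → DirichletCharacter ℂ q → ℂ → ℂ,
      (∀ (q : ℕ) (χ : DirichletCharacter ℂ q), 2 ≤ q →
        Nat.Coprime q (Ideal.absNorm 𝔣 * (discr K).natAbs) → χ.IsPrimitive →
        Differentiable ℂ (F q χ) ∧ ∀ s : ℂ, 1 < s.re → F q χ s =
          Pool.Agent.Y773.LI (Pool.Agent.Y773.tw ψ χ) s) ∧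
      ∃ κ η X0 : ℝ, 1 ≤ κ ∧ 0 < η ∧ 1 ≤ X0 ∧
      ∀ (X Y : ℕ) (T : ℝ), X0 ≤ X → κ * X ≤ Y → (Y : ℝ) ≤ (X : ℝ) ^ (1 + η) →
        (Real.log X) ^ 2 ≤ T → T ≤ (X : ℝ) ^ η →
        a * H385.primFamM (Ideal.absNorm 𝔣 * (discr K).natAbs) X Y
            (fun q χ => (H370.NN (F q χ) T (2 * T) : ℝ)) ≤
          H385.primFamM (Ideal.absNorm 𝔣 * (discr K).natAbs) X Y
            (fun q χ => (H370.Ns (F q χ) T (2 * T) : ℝ)) ∧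
        b * H385.primFamM (Ideal.absNorm 𝔣 * (discr K).natAbs) X Y
            (fun q χ => (H370.NN (F q χ) T (2 * T) : ℝ)) ≤
          H385.primFamM (Ideal.absNorm 𝔣 * (discr K).natAbs) X Y
            (fun q χ => (H370.Nd (F q χ) T (2 * T) : ℝ))) :
    Stmt 𝔣 ψ a b := by
  obtain ⟨L, hL, κ, η, X0, hκ, hη, hX0, h⟩ := H
  refine ⟨L, ?_, κ, η, X0, hκ, hη, hX0, fun X Y T a1 a2 a3 a4 a5 => h X Y T a1 a2 a3 a4 a5⟩
  intro q χ hq hqN hχ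
  obtain ⟨a1, a2⟩ := hL q χ hq hqN hχ
  refine ⟨a1, fun s hs => ?_⟩
  rw [a2 s hs]
  exact Pool.Agent.Y773.hasProd_tw hle χ hs

/-- real quadratic fields -/
theorem two [IsTotallyReal K] (hd : Module.finrank ℚ K = 2)
    {𝔣 : Ideal (𝓞 K)} {ν : InfinitePlace K → ℝ} {ψ : Ideal (𝓞 K) →*₀ ℂ}
    (h : IsHecke K 𝔣 ν ψ) (hirr : Irr 𝔣 ψ) : Stmt 𝔣 ψ 0.6725 0.83625 := by
  obtain ⟨p, P, P', h1, h2, h3, h4, h5⟩ := hirr
  exact conv (hm_norm_le (toH h).toIsHM) _ _ (fin_two hd (toH h) h.sum_zero h1 h2 h3 h4 h5)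

/-- totally real cubic fields -/
theorem three [IsTotallyReal K] (hd : Module.finrank ℚ K = 3)
    {𝔣 : Ideal (𝓞 K)} {ν : InfinitePlace K → ℝ} {ψ : Ideal (𝓞 K) →*₀ ℂ}
    (h : IsHecke K 𝔣 ν ψ) (hirr : Irr 𝔣 ψ) : Stmt 𝔣 ψ 0.27945 0.639725 := by
  obtain ⟨p, P, P', h1, h2, h3, h4, h5⟩ := hirr
  exact conv (hm_norm_le (toH h).toIsHM) _ _ (fin_three hd (toH h) h.sum_zero h1 h2 h3 h4 h5)

end

end Pool.Agent.Y772.HI.Pub
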